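import Pool.Agent.N973.P15.Defs3
import Pool.Agent.N973.P15.BILE

/-!
# P15: evaluation of `cp - cp3` for `5 ∣ n1`
-/

set_option autoImplicit false

namespace Pool.Agent.N886.P15

open Finset
open Pool.Agent.N969.P15
open Pool.Agent.N973.P15
open Pool.Agent.Z700 (hh fac)

theorem hh9 (n1 D' l : ℕ) (hD' : 0 < D') (hl : l.Prime) (h3 : l ≠ 3) :
    hh n1 (9 * D') l = hh n1 D' l := by
  unfold hh
  rw [fact9 D' l hD' hl h3]
  have h1 : 9 * D' / l ^ D'.factorization l = 9 * (D' / l ^ D'.factorization l) :=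
    Nat.mul_div_assoc _ (Nat.ordProj_dvd D' l)
  rw [h1]
  have h2 : (-((9 * (D' / l ^ D'.factorization l) : ℕ) : ℤ)) =
      9 * (-((D' / l ^ D'.factorization l : ℕ) : ℤ)) := by
    push_cast
    ring
  have h4 : (-((n1 / l * (9 * (D' / l ^ D'.factorization l)) : ℕ) : ℤ)) =
      9 * (-((n1 / l * (D' / l ^ D'.factorization l) : ℕ) : ℤ)) := by
    push_cast
    ring
  rw [h2, h4, jac9 _ l hl h3, jac9 _ l hl h3]

theorem five_dvd9 (D' : ℕ) : 5 ∣ 9 * D' ↔ 5 ∣ D' := by omega

/-- splitting off the factor at `3` -/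
theorem prod_split {n1 : ℕ} (h : n1 % 3 = 2) (D : ℕ) (hD : 0 < D) :
    ∏ l ∈ (D.primeFactors.erase 2).erase 5, fac n1 D l =
      ((D.factorization 3 : ℤ) + 1) * ∏ l ∈ ((D.primeFactors.erase 2).erase 3).erase 5,
        fac n1 D l := by
  rw [Finset.erase_right_comm (a := 3) (b := 5)]
  by_cases h3 : 3 ∈ (D.primeFactors.erase 2).erase 5
  · rw [← Finset.mul_prod_erase _ _ h3, fac3 h]
  · rw [Finset.erase_eq_of_notMem h3]
    have h2 : D.factorization 3 = 0 := by
      apply Nat.factorization_eq_zero_of_not_dvd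
      intro h4
      apply h3
      rw [Finset.mem_erase, Finset.mem_erase, Nat.mem_primeFactors]
      exact ⟨by norm_num, by norm_num, by norm_num, h4, hD.ne'⟩
    rw [h2]
    simp

theorem loc5_eq {n1 : ℕ} (h : n1 % 3 = 2) (D : ℕ) (hD : 0 < D) :
    loc5 n1 D = ((D.factorization 3 : ℤ) + 1) * lc5 n1 D := by
  unfold loc5 lc5
  rw [prod_split h D hD]
  split_ifs
  · ring
  · rw [mul_zero]

theorem loc5E_eq {n1 : ℕ} (h : n1 % 3 = 2) (b : ℤ) (D : ℕ) (hD : 0 < D) :
    loc5E n1 b D = ((D.factorization 3 : ℤ) + 1) * lc5E n1 b D := by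
  unfold loc5E lc5E
  rw [prod_split h D hD]
  split_ifs
  · ring
  · rw [mul_zero]

theorem prod9 (n1 D' : ℕ) (hD' : 0 < D') :
    ∏ l ∈ (((9 * D').primeFactors.erase 2).erase 3).erase 5, fac n1 (9 * D') l =
      ∏ l ∈ ((D'.primeFactors.erase 2).erase 3).erase 5, fac n1 D' l := by
  rw [pf9 D' hD']
  refine Finset.prod_congr rfl fun l hl => ?_
  have h1 := Finset.mem_erase.1 (Finset.mem_erase.1 hl).2
  exact fac9 n1 D' l hD' (Nat.prime_of_mem_primeFactors (Finset.mem_erase.1 h1.2).2) h1.1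

theorem lc5_9 (n1 D' : ℕ) (hD' : 0 < D') : lc5 n1 (9 * D') = lc5 n1 D' := by
  unfold lc5 tw
  rw [prod9 n1 D' hD', hh9 n1 D' 5 hD' (by norm_num) (by norm_num),
    fact9 D' 2 hD' (by norm_num) (by norm_num)]
  simp only [five_dvd9]

theorem lc5E_9 (n1 : ℕ) {b b' : ℤ} (hb : tb b' = tb b) (D' : ℕ) (hD' : 0 < D') :
    lc5E n1 b (9 * D') = lc5E n1 b' D' := by
  unfold lc5E
  rw [prod9 n1 D' hD', hh9 n1 D' 5 hD' (by norm_num) (by norm_num), hb]
  simp only [five_dvd9]

/-- **CP35** -/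
theorem t_CP35 (hPC : S_PC5) : S_CP35 := by
  intro n1 n2 b D hs h4 h1 h2 h5 hb hD hDD
  have hcp := hPC n1 n2 b D hs h4 h5 hD hDD
  rw [hcp, loc5_eq h1 D hD]
  have hb3 := sq_mod3 hb
  have h3D : 3 ∣ D := by
    have : (3 : ℤ) ∣ (D : ℤ) := by
      rw [hDD]
      have e : (n1 : ℤ) * n2 - b ^ 2 = ((n1 : ℤ) * n2 - 1) - (b ^ 2 - 1) := by ring
      rw [e]
      refine dvd_sub ?_ hb3
      obtain ⟨c, hc⟩ : ∃ c : ℤ, (n1 : ℤ) = 3 * c + 2 := ⟨n1 / 3, by omega⟩
      obtain ⟨d, hd⟩ : ∃ d : ℤ, (n2 : ℤ) = 3 * d + 2 := ⟨n2 / 3, by omega⟩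
      rw [hc, hd]
      exact ⟨3 * c * d + 2 * c + 2 * d + 1, by ring⟩
    exact_mod_cast this
  by_cases h9 : 9 ∣ D
  · obtain ⟨D', rfl⟩ := h9
    have hD' : 0 < D' := by omega
    have h3n : (3 : ℤ) ∣ b + b * n1 := by
      have e : b + b * (n1 : ℤ) = b * (1 + n1) := by ring
      rw [e]
      exact Dvd.dvd.mul_left (by omega) _
    obtain ⟨b', hb'⟩ := h3n
    have h9n : (9 : ℤ) ∣ n2 + 2 * b ^ 2 + b ^ 2 * n1 := by
      have hc : IsCoprime (9 : ℤ) n1 := by
        have : IsCoprime (3 : ℤ) n1 := by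
          rw [Prime.coprime_iff_not_dvd Int.prime_three]
          omega
        have h := IsCoprime.mul_left this this
        norm_num at h
        exact h
      refine hc.dvd_of_dvd_mul_left ?_
      have e : (n1 : ℤ) * (n2 + 2 * b ^ 2 + b ^ 2 * n1) = 9 * (D' : ℤ) + (b + b * n1) ^ 2 := by
        push_cast at hDD
        rw [hDD]
        ring
      rw [e, hb']
      exact ⟨D' + b' ^ 2, by ring⟩
    obtain ⟨n2', hn2'⟩ := h9n
    have hn0 : 0 ≤ n2' := by
      have : 0 ≤ 9 * n2' := by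
        rw [← hn2']
        positivity
      omega
    obtain ⟨N2, rfl⟩ := Int.eq_ofNat_of_zero_le hn0
    have hc3 := cp3_eq n1 b n2 b' N2 hb hb'.symm hn2'.symm
    rw [hc3]
    have hDD' : (D' : ℤ) = n1 * N2 - b' ^ 2 := by
      have : 9 * (D' : ℤ) = 9 * (n1 * N2 - b' ^ 2) := by
        have e1 : (9 : ℤ) * (n1 * N2 - b' ^ 2) = n1 * (9 * N2) - (3 * b') ^ 2 := by ring
        push_cast at hDD
        rw [e1, ← hb', ← hn2', hDD]
        ring
      linarith
    rw [hPC n1 N2 b' D' hs h4 h5 hD' hDD', loc5_eq h1 D' hD', lc5_9 n1 D' hD', fact9_3 D' hD']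
    push_cast
    ring
  · have hz : cp3 n1 b n2 = 0 := by
      refine cp3_zero n1 b n2 hb ?_
      rw [← hDD]
      intro h
      exact h9 (by exact_mod_cast h)
    have hk : D.factorization 3 = 1 := by
      have k1 : 1 ≤ D.factorization 3 :=
        (Nat.Prime.dvd_iff_one_le_factorization (by norm_num) hD.ne').1 h3D
      have k2 : ¬ 2 ≤ D.factorization 3 := by
        intro h
        have := (Nat.Prime.pow_dvd_iff_le_factorization (p := 3) (by norm_num) hD.ne').2 h
        norm_num at this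
        exact h9 this
      omega
    rw [hz, hk]
    push_cast
    ring

/-- **CP35E** -/
theorem t_CP35E (hPC : S_PC5E) : S_CP35E := by
  intro n1 n2 b D hs h1 h4 h2 h5 hb hD hDD
  have hcp := hPC n1 n2 b D hs h5 h4 hD hDD
  have h41 : 4 ∣ n1 := by
    obtain ⟨m, rfl, -⟩ := hs
    exact dvd_mul_right 4 m
  by_cases hb2 : (2 : ℤ) ∣ b
  · rw [hcp, loc5E_eq h1 b D hD]
    have hb3 := sq_mod3 hb
    have h3D : 3 ∣ D := by
      have : (3 : ℤ) ∣ (D : ℤ) := by
        rw [hDD]
        have e : (n1 : ℤ) * n2 - b ^ 2 = ((n1 : ℤ) * n2 - 1) - (b ^ 2 - 1) := by ring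
        rw [e]
        refine dvd_sub ?_ hb3
        obtain ⟨c, hc⟩ : ∃ c : ℤ, (n1 : ℤ) = 3 * c + 2 := ⟨n1 / 3, by omega⟩
        obtain ⟨d, hd⟩ : ∃ d : ℤ, (n2 : ℤ) = 3 * d + 2 := ⟨n2 / 3, by omega⟩
        rw [hc, hd]
        exact ⟨3 * c * d + 2 * c + 2 * d + 1, by ring⟩
      exact_mod_cast this
    by_cases h9 : 9 ∣ D
    · obtain ⟨D', rfl⟩ := h9
      have hD' : 0 < D' := by omega
      have h3n : (3 : ℤ) ∣ b + b * n1 := by
        have e : b + b * (n1 : ℤ) = b * (1 + n1) := by ring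
        rw [e]
        exact Dvd.dvd.mul_left (by omega) _
      obtain ⟨b', hb'⟩ := h3n
      have h9n : (9 : ℤ) ∣ n2 + 2 * b ^ 2 + b ^ 2 * n1 := by
        have hc : IsCoprime (9 : ℤ) n1 := by
          have : IsCoprime (3 : ℤ) n1 := by
            rw [Prime.coprime_iff_not_dvd Int.prime_three]
            omega
          have h := IsCoprime.mul_left this this
          norm_num at h
          exact h
        refine hc.dvd_of_dvd_mul_left ?_
        have e : (n1 : ℤ) * (n2 + 2 * b ^ 2 + b ^ 2 * n1) = 9 * (D' : ℤ) + (b + b * n1) ^ 2 := by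
          push_cast at hDD
          rw [hDD]
          ring
        rw [e, hb']
        exact ⟨D' + b' ^ 2, by ring⟩
      obtain ⟨n2', hn2'⟩ := h9n
      have hn0 : 0 ≤ n2' := by
        have : 0 ≤ 9 * n2' := by
          rw [← hn2']
          positivity
        omega
      obtain ⟨N2, rfl⟩ := Int.eq_ofNat_of_zero_le hn0
      have hc3 := cp3_eq n1 b n2 b' N2 hb hb'.symm hn2'.symm
      rw [hc3]
      have hDD' : (D' : ℤ) = n1 * N2 - b' ^ 2 := by
        have : 9 * (D' : ℤ) = 9 * (n1 * N2 - b' ^ 2) := by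
          have e1 : (9 : ℤ) * (n1 * N2 - b' ^ 2) = n1 * (9 * N2) - (3 * b') ^ 2 := by ring
          push_cast at hDD
          rw [e1, ← hb', ← hn2', hDD]
          ring
        linarith
      obtain ⟨c, rfl⟩ := hb2
      obtain ⟨n, rfl⟩ := h41
      obtain ⟨n', rfl⟩ := h4
      have h4N : 4 ∣ N2 := by
        have : (4 : ℤ) ∣ 9 * (N2 : ℤ) := by
          rw [← hn2']
          push_cast
          exact ⟨n' + 2 * c ^ 2 + 4 * c ^ 2 * n, by ring⟩
        have : (4 : ℤ) ∣ (N2 : ℤ) := by omega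
        exact_mod_cast this
      have htb : tb b' = tb (2 * c) := by
        have h6 : 3 * b' = 2 * c + 8 * (c * n) := by
          rw [← hb']
          push_cast
          ring
        have h7 : b' % 4 = (2 * c) % 4 := by
          generalize c * (n : ℤ) = x at h6
          omega
        unfold tb
        rw [h7]
      rw [hPC (4 * n) N2 b' D' hs h5 h4N hD' hDD', loc5E_eq h1 b' D' hD', lc5E_9 _ htb D' hD',
        fact9_3 D' hD']
      push_cast
      ring
    · have hz : cp3 n1 b n2 = 0 := by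
        refine cp3_zero n1 b n2 hb ?_
        rw [← hDD]
        intro h
        exact h9 (by exact_mod_cast h)
      have hk : D.factorization 3 = 1 := by
        have k1 : 1 ≤ D.factorization 3 :=
          (Nat.Prime.dvd_iff_one_le_factorization (by norm_num) hD.ne').1 h3D
        have k2 : ¬ 2 ≤ D.factorization 3 := by
          intro h
          have := (Nat.Prime.pow_dvd_iff_le_factorization (p := 3) (by norm_num) hD.ne').2 h
          norm_num at this
          exact h9 this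
        omega
      rw [hz, hk]
      push_cast
      ring
  · have e1 : loc5E n1 b D = 0 := by
      unfold loc5E
      rw [tb_odd hb2]
      simp
    have e2 : lc5E n1 b D = 0 := by
      unfold lc5E
      rw [tb_odd hb2]
      simp
    have e3 := cp3_le n1 b n2
    rw [e1] at hcp
    rw [e2]
    omega

end Pool.Agent.N886.P15
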