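import Pool.Agent.N973.P15.Defs3
import Pool.Agent.N973.P15.REL22

/-!
# P15: the pairs with a common isotropic line modulo `3`, `5 ∣ n1`
-/

set_option autoImplicit false
set_option linter.unusedSimpArgs false
set_option linter.unusedTactic false
set_option linter.unreachableTactic false

namespace Pool.Agent.N886.P15

open Finset
open Pool.Agent.N969.P15
open Pool.Agent.N973.P15

/-- the joint condition -/
def PQ (i : Fin 4) (r3 : ℤ) (v w : V3) : Prop := ((3 : ℤ) ∣ lam i v ∧ (3 : ℤ) ∣ lam i w) ∧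
  (3 : ℤ) ∣ 2 * (mu i v * mu i w) - r3

instance (i : Fin 4) (r3 : ℤ) (v w : V3) : Decidable (PQ i r3 v w) := by
  unfold PQ; infer_instance

/-- the pairs with given congruences -/
theorem pair_eq5 {n1 n2 : ℕ} (h1 : n1 % 3 = 2) (h2 : n2 % 3 = 2) {r3 : ℤ}
    (hr3 : r3 = 1 ∨ r3 = 2) {v w : V3} (hv : v ∈ vec n1) (hw : w ∈ vec n2) :
    ((if ip v w % 3 = r3 then (1 : ℤ) else 0) +
      (if ip v w % 3 = r3 ∧ ∀ i, (3 : ℤ) ∣ v i + ip v w * w i then 1 else 0)) =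
    ∑ i : Fin 4, if PQ i r3 v w then 1 else 0 := by
  have hr : (r3 : ZMod 3) ≠ 0 := by
    rcases hr3 with rfl | rfl <;> decide
  have h6 := fin2 _ _ _ (norm_cast3 h1 hv) _ _ _ (norm_cast3 h2 hw) _ hr
  have hk : ip v w % 3 = r3 ↔ bz (v 0 : ZMod 3) (v 1) (v 2) (w 0) (w 1) (w 2) = (r3 : ZMod 3) := by
    rw [mod3_iff _ _ hr3, ip_cast]
  have e1 : (if ip v w % 3 = r3 then (1 : ℤ) else 0) =
      ((if bz (v 0 : ZMod 3) (v 1) (v 2) (w 0) (w 1) (w 2) = (r3 : ZMod 3) then 1 else 0 : ℕ) : ℤ) := by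
    by_cases hc : bz (v 0 : ZMod 3) (v 1) (v 2) (w 0) (w 1) (w 2) = (r3 : ZMod 3)
    · rw [if_pos (hk.2 hc), if_pos hc]
      rfl
    · rw [if_neg (fun h => hc (hk.1 h)), if_neg hc]
      rfl
  have e2 : (if ip v w % 3 = r3 ∧ ∀ i, (3 : ℤ) ∣ v i + ip v w * w i then
      (1 : ℤ) else 0) =
      ((if bz (v 0 : ZMod 3) (v 1) (v 2) (w 0) (w 1) (w 2) = (r3 : ZMod 3) ∧
        (v 0 : ZMod 3) + r3 * w 0 = 0 ∧ (v 1 : ZMod 3) + r3 * w 1 = 0 ∧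
        (v 2 : ZMod 3) + r3 * w 2 = 0 then 1 else 0 : ℕ) : ℤ) := by
    by_cases hc : ((ip v w : ℤ) : ZMod 3) = (r3 : ZMod 3)
    · have hc' := (mod3_iff _ _ hr3).2 hc
      have hc2 := hk.1 hc'
      have e3 : (∀ i, (3 : ℤ) ∣ v i + ip v w * w i) ↔ ((v 0 : ZMod 3) + r3 * w 0 = 0 ∧
          (v 1 : ZMod 3) + r3 * w 1 = 0 ∧ (v 2 : ZMod 3) + r3 * w 2 = 0) := by
        have e4 : ∀ i, (3 : ℤ) ∣ v i + ip v w * w i ↔ (v i : ZMod 3) + r3 * w i = 0 := by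
          intro i
          rw [cast3]
          push_cast
          rw [hc]
        constructor
        · intro h
          exact ⟨(e4 0).1 (h 0), (e4 1).1 (h 1), (e4 2).1 (h 2)⟩
        · rintro ⟨k0, k1, k2⟩ i
          fin_cases i
          · exact (e4 0).2 k0
          · exact (e4 1).2 k1
          · exact (e4 2).2 k2
      by_cases hd : ∀ i, (3 : ℤ) ∣ v i + ip v w * w i
      · rw [if_pos ⟨hc', hd⟩, if_pos ⟨hc2, e3.1 hd⟩]
        rfl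
      · rw [if_neg (fun h => hd h.2), if_neg (fun h => hd (e3.2 h.2))]
        rfl
    · rw [if_neg (fun h => hc ((mod3_iff _ _ hr3).1 h.1)),
        if_neg (fun h => hc ((mod3_iff _ _ hr3).1 (hk.2 h.1)))]
      rfl
  rw [e1, e2, ← Nat.cast_add, h6, Nat.cast_sum]
  refine sum_congr rfl fun i _ => ?_
  have e5 : PQ i r3 v w ↔ (lz i (v 0 : ZMod 3) (v 1) (v 2) = 0 ∧
      lz i (w 0 : ZMod 3) (w 1) (w 2) = 0 ∧ 2 * (mz i (v 0 : ZMod 3) (v 1) (v 2) *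
        mz i (w 0 : ZMod 3) (w 1) (w 2)) = r3) := by
    unfold PQ
    rw [cast3, cast3, cast3, lam_cast, lam_cast]
    push_cast
    rw [mu_cast, mu_cast, sub_eq_zero]
    tauto
  by_cases hc : PQ i r3 v w
  · rw [if_pos hc, if_pos (e5.1 hc)]
    rfl
  · rw [if_neg hc, if_neg (fun h => hc (e5.2 h))]
    rfl

/-- the two signs are equally distributed -/
theorem two_pt {n1 n2 : ℕ} (h1 : n1 % 3 = 2) (h2 : n2 % 3 = 2) {r3 : ℤ}
    (hr3 : r3 = 1 ∨ r3 = 2) {v w : V3} (hv : v ∈ vec n1) (hw : w ∈ vec n2) (i : Fin 4) :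
    (if PQ i r3 v w then (1 : ℤ) else 0) + (if PQ i r3 (-v) w then 1 else 0) =
      if (3 : ℤ) ∣ lam i v ∧ (3 : ℤ) ∣ lam i w then 1 else 0 := by
  have q1 : PQ i r3 (-v) w ↔ ((3 : ℤ) ∣ lam i v ∧ (3 : ℤ) ∣ lam i w) ∧
      (3 : ℤ) ∣ 2 * (-(mu i v * mu i w)) - r3 := by
    unfold PQ
    rw [lam_neg, dvd_neg, mu_neg, neg_mul]
  have q0 : PQ i r3 v w ↔ ((3 : ℤ) ∣ lam i v ∧ (3 : ℤ) ∣ lam i w) ∧
      (3 : ℤ) ∣ 2 * (mu i v * mu i w) - r3 := Iff.rfl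
  simp only [q0, q1]
  by_cases hL : (3 : ℤ) ∣ lam i v ∧ (3 : ℤ) ∣ lam i w
  · have hm : ¬ (3 : ℤ) ∣ mu i v * mu i w := fun h =>
      (Int.Prime.dvd_mul' (by norm_num) h).elim (mu_ne h1 hv i hL.1) (mu_ne h2 hw i hL.2)
    have c3 := mod3_cases hm hr3
    rcases c3 with c3 | c3 <;> simp only [hL, c3] <;> norm_num
  · have a1 : ∀ p : Prop, ¬ (((3 : ℤ) ∣ lam i v ∧ (3 : ℤ) ∣ lam i w) ∧ p) := fun p h => hL h.1
    rw [if_neg (a1 _), if_neg (a1 _), if_neg hL]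
    rfl

/-- the sum over the first vector -/
theorem two_sum {n1 n2 : ℕ} (h1 : n1 % 3 = 2) (h2 : n2 % 3 = 2) {r3 : ℤ}
    (hr3 : r3 = 1 ∨ r3 = 2) {w : V3} (hw : w ∈ vec n2) (i : Fin 4) :
    2 * ∑ v ∈ vec n1, (if PQ i r3 v w then (1 : ℤ) else 0) =
      ∑ v ∈ vec n1, if (3 : ℤ) ∣ lam i v ∧ (3 : ℤ) ∣ lam i w then 1 else 0 := by
  have k1 := sum_inv n1 (fun v => -v) (fun v => -v) (fun v => ip_neg v v) (fun v => ip_neg v v)
    (fun v => neg_neg v) (fun v => neg_neg v) (fun v => if PQ i r3 v w then (1 : ℤ) else 0)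
  rw [← sum_congr rfl fun v hv => two_pt h1 h2 hr3 hv hw i, sum_add_distrib]
  linarith

/-- the pairs -/
theorem pair_count5 {n1 n2 : ℕ} (h1 : n1 % 3 = 2) (h2 : n2 % 3 = 2) {r3 : ℤ}
    (hr3 : r3 = 1 ∨ r3 = 2) {B : ℤ} (hB : (n1 : ℤ) * n2 < B ^ 2) (hB0 : 0 < B) :
    ∑ b ∈ (Ioo (-B) B).filter (fun b : ℤ => b % 3 = r3), ((cp n1 b n2 : ℤ) + cp3 n1 b n2) =
    ∑ i : Fin 4, ∑ w ∈ vec n2, ∑ v ∈ vec n1, if PQ i r3 v w then 1 else 0 := by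
  have a1 : ∀ b : ℤ, (cp n1 b n2 : ℤ) = ∑ q ∈ vec n1 ×ˢ vec n2, if ip q.1 q.2 = b then 1 else 0 := by
    intro b
    unfold cp
    rw [Finset.card_filter]
    push_cast
    rfl
  have a2 : ∀ b : ℤ, (cp3 n1 b n2 : ℤ) = ∑ q ∈ vec n1 ×ˢ vec n2,
      if ip q.1 q.2 = b ∧ ∀ i, (3 : ℤ) ∣ q.1 i + b * q.2 i then 1 else 0 := by
    intro b
    unfold cp3
    rw [Finset.card_filter]
    push_cast
    rfl
  have a3 : ∑ i : Fin 4, ∑ w ∈ vec n2, ∑ v ∈ vec n1, (if PQ i r3 v w then (1 : ℤ) else 0) =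
      ∑ q ∈ vec n1 ×ˢ vec n2, ∑ i : Fin 4, if PQ i r3 q.1 q.2 then 1 else 0 := by
    rw [Finset.sum_comm (s := vec n1 ×ˢ vec n2)]
    refine sum_congr rfl fun i _ => ?_
    rw [Finset.sum_product, Finset.sum_comm]
  rw [a3, sum_congr rfl fun b _ => congrArg₂ (· + ·) (a1 b) (a2 b)]
  rw [sum_congr rfl fun b _ => (sum_add_distrib).symm, Finset.sum_comm]
  refine sum_congr rfl fun q hq => ?_
  obtain ⟨hv, hw⟩ := Finset.mem_product.1 hq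
  rw [← pair_eq5 h1 h2 hr3 hv hw, sum_add_distrib]
  have hb : ip q.1 q.2 ∈ Ioo (-B) B := by
    have hc := cauchy q.1 q.2
    rw [(mem_vec _ _).1 hv, (mem_vec _ _).1 hw] at hc
    have := abs_lt_of_sq_lt_sq (lt_of_le_of_lt hc hB) hB0.le
    rw [abs_lt] at this
    exact Finset.mem_Ioo.2 this
  congr 1
  · rw [Finset.sum_ite_eq]
    refine if_congr ?_ rfl rfl
    rw [Finset.mem_filter]
    exact ⟨fun h => h.2, fun h => ⟨hb, h⟩⟩
  · by_cases hc : ip q.1 q.2 % 3 = r3 ∧ ∀ i, (3 : ℤ) ∣ q.1 i + ip q.1 q.2 * q.2 i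
    · rw [if_pos hc, Finset.sum_eq_single (ip q.1 q.2)]
      · rw [if_pos ⟨rfl, hc.2⟩]
      · intro b _ hne
        rw [if_neg]
        rintro ⟨h, -⟩
        exact hne h.symm
      · intro h
        exact absurd (Finset.mem_filter.2 ⟨hb, hc.1⟩) h
    · rw [if_neg hc]
      refine sum_eq_zero fun b hbb => ?_
      rw [if_neg]
      rintro ⟨rfl, h⟩
      exact hc ⟨(Finset.mem_filter.1 hbb).2, h⟩

/-- **REL5** -/
theorem t_REL5 : S_REL5 := by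
  intro n1 n2 h1 h2 _ _ r3 hr3 B hB hB0
  rw [pair_count5 h1 h2 hr3 hB hB0]
  have h4 : 2 * ∑ i : Fin 4, ∑ w ∈ vec n2, ∑ v ∈ vec n1, (if PQ i r3 v w then (1 : ℤ) else 0) =
      ∑ i : Fin 4, NN i n1 * NN i n2 := by
    rw [Finset.mul_sum]
    refine sum_congr rfl fun i _ => ?_
    rw [Finset.mul_sum, sum_congr rfl fun w hw => two_sum h1 h2 hr3 hw i]
    unfold NN
    rw [Finset.sum_mul_sum, Finset.sum_comm]
    refine sum_congr rfl fun v _ => sum_congr rfl fun w _ => ?_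
    by_cases ha : (3 : ℤ) ∣ lam i v <;> by_cases hb : (3 : ℤ) ∣ lam i w <;> simp [ha, hb]
  have h5 : ∑ i : Fin 4, NN i n1 * NN i n2 = NN 0 n1 * NN 0 n2 + 3 * (NN 1 n1 * NN 1 n2) := by
    rw [Fin.sum_univ_four, (NN_eq n1).1, (NN_eq n1).2, (NN_eq n2).1, (NN_eq n2).2]
    ring
  rw [h5] at h4
  have k1 := NN_sum h1
  have k2 := NN_sum h2
  have hc : ∀ n : ℕ, n % 3 = 2 → cc n = rr n - 2 * rr0 n := by
    intro n hn
    unfold cc
    rw [if_neg]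
    omega
  rw [hc n1 h1, hc n2 h2, ← NN_zero, ← NN_zero]
  have k3 : 3 * NN 1 n1 * (3 * NN 1 n2) = (2 * rr n1 - NN 0 n1) * (2 * rr n2 - NN 0 n2) := by
    rw [← k1, ← k2]
    ring
  linear_combination 3 * h4 + k3

end Pool.Agent.N886.P15
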